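import Pool.Agent.H14.ES.Stm

/-! Part SGP of the crew ES (`MP_9214e0_lc`): spectral gap. -/

set_option autoImplicit false

namespace H24.ES

open MeasureTheory Set H14.ES
open scoped ENNReal

theorem wal_meas {I : Type} (A : Finset I) : Measurable (fun ω : I → Bool => wal A ω) := by
  unfold wal
  refine Finset.measurable_prod _ (fun i _ => ?_)
  exact (Measurable.of_discrete (f := fun b : Bool => if b then (-1 : ℝ) else 1)).comp
    (measurable_pi_apply i)

theorem wal_abs {I : Type} (A : Finset I) (ω : I → Bool) : ‖wal A ω‖ ≤ 1 := by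
  unfold wal
  rw [norm_prod]
  refine (Finset.prod_le_one (fun i _ => norm_nonneg _) (fun i _ => ?_))
  split_ifs <;> simp

theorem wal_int {I : Type} (A : Finset I) : Integrable (fun ω : I → Bool => wal A ω) (mu I) :=
  Integrable.of_bound (wal_meas A).aestronglyMeasurable 1 (Filter.Eventually.of_forall (wal_abs A))

theorem wal_map {I : Type} (A : Finset I) (p : Equiv.Perm I) (ω : I → Bool) :
    wal (A.map p.toEmbedding) (sh p ω) = wal A ω := by
  unfold wal sh
  rw [Finset.prod_map]
  simp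

theorem wal_tsum (h : S_WAL) {I : Type} [Countable I] (E : Set (I → Bool)) (hE : MeasurableSet E) :
    ∑' A : Finset I, ENNReal.ofReal ((∫ ω in E, wal A ω ∂(mu I)) ^ 2) = mu I E := by
  have h1 := h I E hE
  rw [← ENNReal.ofReal_tsum_of_nonneg (fun A => sq_nonneg _) h1.summable, h1.tsum_eq,
    ENNReal.ofReal_toReal (measure_ne_top _ _)]

theorem wal_diff (h : S_WAL) {I : Type} [Countable I] (E E' : Set (I → Bool))
    (hE : MeasurableSet E) (hE' : MeasurableSet E') :
    ∑' A : Finset I, ENNReal.ofReal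
      ((∫ ω in E, wal A ω ∂(mu I) - ∫ ω in E', wal A ω ∂(mu I)) ^ 2) =
      mu I (E \ E') + mu I (E' \ E) := by
  have hP := h I (E \ E') (hE.diff hE')
  have hQ := h I (E' \ E) (hE'.diff hE)
  have hR := h I ((E \ E') ∪ (E' \ E)) ((hE.diff hE').union (hE'.diff hE))
  have hdis : Disjoint (E \ E') (E' \ E) := by
    rw [Set.disjoint_left]
    rintro x ⟨h1, h2⟩ ⟨h3, h4⟩
    exact h2 h3
  have e1 : ∀ A : Finset I, ∫ ω in E, wal A ω ∂(mu I) - ∫ ω in E', wal A ω ∂(mu I) =
      ∫ ω in E \ E', wal A ω ∂(mu I) - ∫ ω in E' \ E, wal A ω ∂(mu I) := by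
    intro A
    have h1 := integral_inter_add_diff (μ := mu I) (s := E) (f := wal A) hE' (wal_int A).integrableOn
    have h2 := integral_inter_add_diff (μ := mu I) (s := E') (f := wal A) hE (wal_int A).integrableOn
    rw [Set.inter_comm] at h2
    linarith
  have e2 : ∀ A : Finset I, ∫ ω in (E \ E') ∪ (E' \ E), wal A ω ∂(mu I) =
      ∫ ω in E \ E', wal A ω ∂(mu I) + ∫ ω in E' \ E, wal A ω ∂(mu I) := by
    intro A
    exact setIntegral_union hdis (hE'.diff hE) (wal_int A).integrableOn (wal_int A).integrableOn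
  have hS := ((hP.mul_left 2).add (hQ.mul_left 2)).sub hR
  have hS' : HasSum (fun A : Finset I =>
      (∫ ω in E, wal A ω ∂(mu I) - ∫ ω in E', wal A ω ∂(mu I)) ^ 2)
      ((mu I (E \ E')).toReal + (mu I (E' \ E)).toReal) := by
    have e4 : (fun A : Finset I =>
        (∫ ω in E, wal A ω ∂(mu I) - ∫ ω in E', wal A ω ∂(mu I)) ^ 2) = fun b =>
        2 * (∫ ω in E \ E', wal b ω ∂(mu I)) ^ 2 + 2 * (∫ ω in E' \ E, wal b ω ∂(mu I)) ^ 2 -
        (∫ ω in E \ E' ∪ E' \ E, wal b ω ∂(mu I)) ^ 2 := by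
      funext A
      rw [e1, e2]
      ring
    have e5 : (mu I (E \ E')).toReal + (mu I (E' \ E)).toReal =
        2 * (mu I (E \ E')).toReal + 2 * (mu I (E' \ E)).toReal -
        (mu I (E \ E' ∪ E' \ E)).toReal := by
      rw [measure_union hdis (hE'.diff hE),
        ENNReal.toReal_add (measure_ne_top _ _) (measure_ne_top _ _)]
      ring
    rw [e4, e5]
    exact hS
  rw [← ENNReal.ofReal_tsum_of_nonneg (fun A => sq_nonneg _) hS'.summable, hS'.tsum_eq,
    ENNReal.ofReal_add ENNReal.toReal_nonneg ENNReal.toReal_nonneg,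
    ENNReal.ofReal_toReal (measure_ne_top _ _), ENNReal.ofReal_toReal (measure_ne_top _ _)]

/-- Walsh coefficient of a level set -/
noncomputable def co {I Λ : Type} (U : (I → Bool) → Λ) (A : Finset I) (l : Λ) : ℝ :=
  ∫ ω in {ω | U ω = l}, wal A ω ∂(mu I)

theorem tsum_lev {Ω Λ : Type} [MeasurableSpace Ω] (μ : Measure Ω) [Countable Λ]
    [MeasurableSpace Λ] [DiscreteMeasurableSpace Λ] (W : Ω → Λ) (hW : Measurable W)
    (N : Set Ω) (hN : MeasurableSet N) : ∑' l : Λ, μ ({ω | W ω = l} ∩ N) = μ N := by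
  have hm : ∀ l : Λ, MeasurableSet ({ω | W ω = l} ∩ N) := fun l =>
    (hW (measurableSet_singleton l)).inter hN
  rw [← measure_iUnion]
  · congr 1
    ext ω
    simp
  · intro l l' hl
    rw [Function.onFun, Set.disjoint_left]
    rintro ω ⟨h1, _⟩ ⟨h2, _⟩
    exact hl (h1.symm.trans h2)
  · exact hm

theorem fib_total (h : S_WAL) {I Λ : Type} [Countable I] [Countable Λ] [MeasurableSpace Λ]
    [DiscreteMeasurableSpace Λ] (U : (I → Bool) → Λ) (hU : Measurable U) :
    ∑' l : Λ, ∑' A : Finset I, ENNReal.ofReal (co U A l ^ 2) = 1 := by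
  have e : ∀ l : Λ, ∑' A : Finset I, ENNReal.ofReal (co U A l ^ 2) =
      mu I ({ω | U ω = l} ∩ Set.univ) := by
    intro l
    rw [Set.inter_univ]
    exact wal_tsum h _ (hU (measurableSet_singleton l))
  simp_rw [e]
  rw [tsum_lev (mu I) U hU _ MeasurableSet.univ, measure_univ]

theorem fib_diff (h : S_WAL) {I Λ : Type} [Countable I] [Countable Λ] [MeasurableSpace Λ]
    [DiscreteMeasurableSpace Λ] (U U' : (I → Bool) → Λ) (hU : Measurable U)
    (hU' : Measurable U') :
    ∑' l : Λ, ∑' A : Finset I, ENNReal.ofReal ((co U' A l - co U A l) ^ 2) =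
      2 * mu I {ω | U' ω ≠ U ω} := by
  have hN : MeasurableSet {ω | U' ω ≠ U ω} := (measurableSet_eq_fun hU' hU).compl
  have e : ∀ l : Λ, ∑' A : Finset I, ENNReal.ofReal ((co U' A l - co U A l) ^ 2) =
      mu I ({ω | U' ω = l} ∩ {ω | U' ω ≠ U ω}) + mu I ({ω | U ω = l} ∩ {ω | U' ω ≠ U ω}) := by
    intro l
    have h1 := wal_diff h {ω | U' ω = l} {ω | U ω = l} (hU' (measurableSet_singleton l))
      (hU (measurableSet_singleton l))
    unfold co
    rw [h1]
    congr 2
    · ext ω
      simp only [mem_diff, mem_setOf_eq, mem_inter_iff]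
      constructor
      · rintro ⟨h2, h3⟩
        exact ⟨h2, fun h4 => h3 (h4.symm.trans h2)⟩
      · rintro ⟨h2, h3⟩
        exact ⟨h2, fun h4 => h3 (h2.trans h4.symm)⟩
    · ext ω
      simp only [mem_diff, mem_setOf_eq, mem_inter_iff]
      constructor
      · rintro ⟨h2, h3⟩
        exact ⟨h2, fun h4 => h3 (h4.trans h2)⟩
      · rintro ⟨h2, h3⟩
        exact ⟨h2, fun h4 => h3 (h4.trans h2.symm)⟩
  simp_rw [e]
  rw [ENNReal.tsum_add, tsum_lev (mu I) U' hU' _ hN, tsum_lev (mu I) U hU _ hN, two_mul]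

theorem sub_le {α Λ : Type} (S : Set α) (f : Λ → α → ℝ≥0∞) :
    ∑' l : Λ, ∑' A : S, f l A ≤ ∑' l : Λ, ∑' A : α, f l A :=
  ENNReal.tsum_le_tsum (fun l => ENNReal.tsum_comp_le_tsum_of_injective
    Subtype.val_injective (f l))

theorem fibre (h : S_WAL) {I Λ : Type} [Countable I] [Countable Λ] [MeasurableSpace Λ]
    [DiscreteMeasurableSpace Λ] (U U' : (I → Bool) → Λ) (hU : Measurable U)
    (hU' : Measurable U') (S : Set (Finset I)) (t : ℝ) (ht : 0 < t) :
    ∑' l : Λ, ∑' A : S, ENNReal.ofReal (co U' A l ^ 2) ≤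
      ∑' l : Λ, ∑' A : S, ENNReal.ofReal (co U A l ^ 2) +
        (ENNReal.ofReal t * mu I {ω | U' ω ≠ U ω} + ENNReal.ofReal (2 / t)) := by
  have key : ∀ (l : Λ) (A : Finset I), ENNReal.ofReal (co U' A l ^ 2) ≤
      ENNReal.ofReal (co U A l ^ 2) + (ENNReal.ofReal (t / 2) *
        ENNReal.ofReal ((co U' A l - co U A l) ^ 2) + (ENNReal.ofReal (1 / t) *
        ENNReal.ofReal (co U' A l ^ 2) + ENNReal.ofReal (1 / t) *
        ENNReal.ofReal (co U A l ^ 2))) := by
    intro l A
    set a := co U' A l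
    set b := co U A l
    rw [← ENNReal.ofReal_mul (by positivity), ← ENNReal.ofReal_mul (by positivity),
      ← ENNReal.ofReal_mul (by positivity), ← ENNReal.ofReal_add (by positivity) (by positivity),
      ← ENNReal.ofReal_add (by positivity) (by positivity),
      ← ENNReal.ofReal_add (by positivity) (by positivity)]
    apply ENNReal.ofReal_le_ofReal
    have h1 : 0 ≤ (t * (a - b) - (a + b)) ^ 2 / (2 * t) := by positivity
    have h2 : 0 ≤ (a - b) ^ 2 / (2 * t) := by positivity
    have e1 : b ^ 2 + (t / 2 * (a - b) ^ 2 + (1 / t * a ^ 2 + 1 / t * b ^ 2)) - a ^ 2 =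
        (t * (a - b) - (a + b)) ^ 2 / (2 * t) + (a - b) ^ 2 / (2 * t) := by
      field_simp
      ring
    linarith
  calc ∑' l : Λ, ∑' A : S, ENNReal.ofReal (co U' A l ^ 2)
      ≤ ∑' l : Λ, ∑' A : S, (ENNReal.ofReal (co U A l ^ 2) + (ENNReal.ofReal (t / 2) *
        ENNReal.ofReal ((co U' A l - co U A l) ^ 2) + (ENNReal.ofReal (1 / t) *
        ENNReal.ofReal (co U' A l ^ 2) + ENNReal.ofReal (1 / t) *
        ENNReal.ofReal (co U A l ^ 2)))) :=
        ENNReal.tsum_le_tsum (fun l => ENNReal.tsum_le_tsum (fun A => key l A))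
    _ = ∑' l : Λ, ∑' A : S, ENNReal.ofReal (co U A l ^ 2) + (ENNReal.ofReal (t / 2) *
        ∑' l : Λ, ∑' A : S, ENNReal.ofReal ((co U' A l - co U A l) ^ 2) +
        (ENNReal.ofReal (1 / t) * ∑' l : Λ, ∑' A : S, ENNReal.ofReal (co U' A l ^ 2) +
        ENNReal.ofReal (1 / t) * ∑' l : Λ, ∑' A : S, ENNReal.ofReal (co U A l ^ 2))) := by
        simp_rw [ENNReal.tsum_add, ENNReal.tsum_mul_left]
    _ ≤ ∑' l : Λ, ∑' A : S, ENNReal.ofReal (co U A l ^ 2) + (ENNReal.ofReal (t / 2) *
        (2 * mu I {ω | U' ω ≠ U ω}) + (ENNReal.ofReal (1 / t) * 1 +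
        ENNReal.ofReal (1 / t) * 1)) := by
        gcongr
        · rw [← fib_diff h U U' hU hU']
          exact sub_le S (fun l A => ENNReal.ofReal ((co U' A l - co U A l) ^ 2))
        · rw [← fib_total h U' hU']
          exact sub_le S (fun l A => ENNReal.ofReal (co U' A l ^ 2))
        · rw [← fib_total h U hU]
          exact sub_le S (fun l A => ENNReal.ofReal (co U A l ^ 2))
    _ = ∑' l : Λ, ∑' A : S, ENNReal.ofReal (co U A l ^ 2) +
        (ENNReal.ofReal t * mu I {ω | U' ω ≠ U ω} + ENNReal.ofReal (2 / t)) := by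
        congr 2
        · rw [← mul_assoc]
          congr 1
          rw [show (2 : ℝ≥0∞) = ENNReal.ofReal 2 by simp, ← ENNReal.ofReal_mul (by positivity)]
          congr 1
          ring
        · rw [mul_one, ← ENNReal.ofReal_add (by positivity) (by positivity)]
          congr 1
          ring

section main

variable {I Λ X : Type} [Countable I] [Countable Λ] [MeasurableSpace Λ]
  [DiscreteMeasurableSpace Λ] [MeasurableSpace X]

theorem co_meas (V : X × (I → Bool) → Λ) (hV : Measurable V) (A : Finset I) (l : Λ) :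
    Measurable (fun x => co (fun ω => V (x, ω)) A l) := by
  have h1 : StronglyMeasurable (fun q : X × (I → Bool) =>
      {q | V q = l}.indicator (fun q => wal A q.2) q) := by
    refine (Measurable.indicator ?_ (hV (measurableSet_singleton l))).stronglyMeasurable
    exact (wal_meas A).comp measurable_snd
  have h2 := h1.integral_prod_right' (ν := mu I)
  have e : (fun x => co (fun ω => V (x, ω)) A l) =
      fun x => ∫ ω, {q | V q = l}.indicator (fun q => wal A q.2) (x, ω) ∂(mu I) := by
    funext x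
    unfold co
    rw [← integral_indicator]
    · rfl
    · exact (hV.comp measurable_prodMk_left) (measurableSet_singleton l)
  rw [e]
  exact h2.measurable

theorem sh_mp (hR : S_REI) (p : Equiv.Perm I) : MeasurePreserving (sh p) (mu I) (mu I) :=
  hR I I p⁻¹

omit [Countable Λ] in
theorem co_shift (hR : S_REI) (p : Equiv.Perm I) (U : (I → Bool) → Λ) (hU : Measurable U)
    (A : Finset I) (l : Λ) :
    co (fun ω => U (sh p ω)) A l = co U (A.map p.toEmbedding) l := by
  have hmp : MeasurePreserving (sh p) (mu I) (mu I) := sh_mp hR p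
  unfold co
  have h1 := setIntegral_map (μ := mu I) (g := sh p) (f := wal (A.map p.toEmbedding))
    (s := {ω | U ω = l}) (hU (measurableSet_singleton l))
    (wal_meas _).aestronglyMeasurable hmp.measurable.aemeasurable
  rw [hmp.map_eq] at h1
  rw [h1]
  simp_rw [wal_map]
  rfl

/-- mass of a finite set -/
noncomputable def M (μX : Measure X) (V : X × (I → Bool) → Λ) (A : Finset I) : ℝ≥0∞ :=
  ∫⁻ x, ∑' l : Λ, ENNReal.ofReal (co (fun ω => V (x, ω)) A l ^ 2) ∂μX

theorem M_sum (μX : Measure X) (V : X × (I → Bool) → Λ) (hV : Measurable V) {ι : Type}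
    [Countable ι] (g : ι → Finset I) : ∑' A : ι, M μX V (g A) =
      ∫⁻ x, ∑' l : Λ, ∑' A : ι, ENNReal.ofReal (co (fun ω => V (x, ω)) (g A) l ^ 2) ∂μX := by
  unfold M
  rw [← lintegral_tsum]
  · congr 1
    funext x
    exact ENNReal.tsum_comm
  · intro A
    exact (Measurable.ennreal_tsum
      (fun l => ((co_meas V hV (g A) l).pow_const 2).ennreal_ofReal)).aemeasurable

theorem sum_meas (V : X × (I → Bool) → Λ) (hV : Measurable V) {ι : Type}
    [Countable ι] (g : ι → Finset I) : Measurable (fun x =>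
      ∑' l : Λ, ∑' A : ι, ENNReal.ofReal (co (fun ω => V (x, ω)) (g A) l ^ 2)) :=
  Measurable.ennreal_tsum (fun l => Measurable.ennreal_tsum
      (fun A => ((co_meas V hV (g A) l).pow_const 2).ennreal_ofReal))

theorem M_ineq (hW : S_WAL) (hR : S_REI) (μX : Measure X) [IsProbabilityMeasure μX]
    (V : X × (I → Bool) → Λ) (hV : Measurable V) (T : X → X) (hT : MeasurePreserving T μX μX)
    (θ : X → Equiv.Perm Λ) (hθ : ∀ l, Measurable fun x => θ x l) (p : Equiv.Perm I) (δ : ℝ≥0∞)
    (hd : (μX.prod (mu I)) {q | V (T q.1, sh p q.2) ≠ θ q.1 (V q)} ≤ δ)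
    (S : Set (Finset I)) (t : ℝ) (ht : 0 < t) :
    ∑' A : S, M μX V ((A : Finset I).map p.toEmbedding) ≤
      ∑' A : S, M μX V A + (ENNReal.ofReal t * δ + ENNReal.ofReal (2 / t)) := by
  have hsh : Measurable (sh p : (I → Bool) → (I → Bool)) := (sh_mp hR p).measurable
  have hθ2 : Measurable (fun q : X × Λ => θ q.1 q.2) := measurable_from_prod_countable_left hθ
  have hN : MeasurableSet {q : X × (I → Bool) | V (T q.1, sh p q.2) ≠ θ q.1 (V q)} := by
    have h1 : Measurable (fun q : X × (I → Bool) => V (T q.1, sh p q.2)) :=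
      hV.comp ((hT.measurable.comp measurable_fst).prodMk (hsh.comp measurable_snd))
    have h2 : Measurable (fun q : X × (I → Bool) => θ q.1 (V q)) :=
      hθ2.comp (measurable_fst.prodMk hV)
    exact (measurableSet_eq_fun h1 h2).compl
  rw [M_sum μX V hV (fun A : S => (A : Finset I).map p.toEmbedding),
    M_sum μX V hV (fun A : S => (A : Finset I))]
  calc ∫⁻ x, ∑' l : Λ, ∑' A : S, ENNReal.ofReal
        (co (fun ω => V (x, ω)) ((A : Finset I).map p.toEmbedding) l ^ 2) ∂μX
      = ∫⁻ x, ∑' l : Λ, ∑' A : S, ENNReal.ofReal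
        (co (fun ω => V (T x, ω)) ((A : Finset I).map p.toEmbedding) l ^ 2) ∂μX :=
        (hT.lintegral_comp (sum_meas V hV
          (fun A : S => (A : Finset I).map p.toEmbedding))).symm
    _ = ∫⁻ x, ∑' l : Λ, ∑' A : S, ENNReal.ofReal
        (co (fun ω => (θ x).symm (V (T x, sh p ω))) A l ^ 2) ∂μX := by
        congr 1
        funext x
        rw [← Equiv.tsum_eq (θ x)]
        refine tsum_congr (fun l => tsum_congr (fun A => ?_))
        congr 2
        rw [← co_shift hR p (fun ω => V (T x, ω)) (hV.comp measurable_prodMk_left)]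
        unfold co
        congr 2
        ext ω
        simp only [mem_setOf_eq]
        exact ((θ x).symm_apply_eq).symm
    _ ≤ ∫⁻ x, (∑' l : Λ, ∑' A : S, ENNReal.ofReal (co (fun ω => V (x, ω)) A l ^ 2) +
        (ENNReal.ofReal t * mu I {ω | (θ x).symm (V (T x, sh p ω)) ≠ V (x, ω)} +
        ENNReal.ofReal (2 / t))) ∂μX := by
        refine lintegral_mono (fun x => ?_)
        refine fibre hW (fun ω => V (x, ω)) (fun ω => (θ x).symm (V (T x, sh p ω)))
          (hV.comp measurable_prodMk_left) ?_ S t ht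
        exact (Measurable.of_discrete (f := fun l : Λ => (θ x).symm l)).comp
          ((hV.comp measurable_prodMk_left).comp hsh)
    _ ≤ ∫⁻ x, ∑' l : Λ, ∑' A : S, ENNReal.ofReal (co (fun ω => V (x, ω)) A l ^ 2) ∂μX +
        (ENNReal.ofReal t * δ + ENNReal.ofReal (2 / t)) := by
        rw [lintegral_add_left (sum_meas V hV (fun A : S => (A : Finset I))),
          lintegral_add_right _ measurable_const, lintegral_const_mul' _ _ ENNReal.ofReal_ne_top]
        simp only [lintegral_const, measure_univ, mul_one]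
        gcongr
        refine le_trans (le_of_eq ?_) hd
        rw [Measure.prod_apply hN]
        congr 1
        funext x
        congr 1
        ext ω
        simp only [mem_setOf_eq, mem_preimage, ne_eq]
        rw [(θ x).symm_apply_eq]

end main

theorem t_SGP (hPAR : S_PAR) (hWAL : S_WAL) (hREI : S_REI) : S_SGP := by
  intro D _ ρ hρ Λ _ _ _ X _ μX _ T hT V hV θ hθ δ hδ hd
  let ρ' : FreeGroup Bool →* Equiv.Perm (D × ℕ) :=
    { toFun := fun h => lift (ρ h)
      map_one' := by ext ⟨d, n⟩ <;> simp [lift]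
      map_mul' := by intro h k; ext ⟨d, n⟩ <;> simp [lift] }
  have hρ' : FreeAct ρ' := by
    rintro h ⟨d, n⟩ he
    have h1 : ρ h d = d := congrArg Prod.fst he
    exact hρ h d h1
  have hpt : ∀ (S : Set (Finset (D × ℕ))) (s : Bool) (t : ℝ), 0 < t →
      ∑' A : S, M μX V ((A : Finset (D × ℕ)).map (ρ' (FreeGroup.of s)).toEmbedding) ≤
        ∑' A : S, M μX V A + (ENNReal.ofReal t * ENNReal.ofReal δ + ENNReal.ofReal (2 / t)) :=
    fun S s t ht => M_ineq hWAL hREI μX V hV (T s) (hT s) (θ s) (hθ s)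
      (lift (ρ (FreeGroup.of s))) (ENNReal.ofReal δ) (hd s) S t ht
  have htot : ∑' A : Finset (D × ℕ), M μX V A = 1 := by
    rw [M_sum μX V hV (fun A => A)]
    have h1 : ∀ x, ∑' l : Λ, ∑' A : Finset (D × ℕ),
        ENNReal.ofReal (co (fun ω => V (x, ω)) A l ^ 2) = 1 :=
      fun x => fib_total hWAL _ (hV.comp measurable_prodMk_left)
    simp_rw [h1]
    simp
  have htop : ∑' A : Finset (D × ℕ), M μX V A ≠ ⊤ := by
    rw [htot]
    exact ENNReal.one_ne_top
  have hfin : ∀ A : Finset (D × ℕ), M μX V A ≠ ⊤ := ENNReal.ne_top_of_tsum_ne_top htop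
  have hsum : Summable (fun A : Finset (D × ℕ) => (M μX V A).toReal) :=
    ENNReal.summable_toReal htop
  have hκ : ∀ (s : Bool) (S : Set (Finset (D × ℕ))),
      ∑' A : S, (M μX V ((A : Finset (D × ℕ)).map (ρ' (FreeGroup.of s)).toEmbedding)).toReal ≤
        ∑' A : S, (M μX V A).toReal + 2 * Real.sqrt (2 * δ) := by
    intro s S
    have hSle : ∑' A : S, M μX V A ≤ 1 := by
      rw [← htot]
      exact ENNReal.tsum_comp_le_tsum_of_injective Subtype.val_injective _
    have e1 : ∑' A : S, (M μX V ((A : Finset (D × ℕ)).map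
        (ρ' (FreeGroup.of s)).toEmbedding)).toReal = (∑' A : S,
        M μX V ((A : Finset (D × ℕ)).map (ρ' (FreeGroup.of s)).toEmbedding)).toReal :=
      (ENNReal.tsum_toReal_eq (fun A => hfin _)).symm
    have e2 : ∑' A : S, (M μX V (A : Finset (D × ℕ))).toReal =
        (∑' A : S, M μX V (A : Finset (D × ℕ))).toReal :=
      (ENNReal.tsum_toReal_eq (fun A => hfin _)).symm
    have h3 : ∀ t : ℝ, 0 < t →
        ∑' A : S, (M μX V ((A : Finset (D × ℕ)).map (ρ' (FreeGroup.of s)).toEmbedding)).toReal ≤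
          ∑' A : S, (M μX V A).toReal + (t * δ + 2 / t) := by
      intro t ht
      rw [e1, e2]
      have hS2 : ∑' A : S, M μX V (A : Finset (D × ℕ)) ≠ ⊤ :=
        ne_top_of_le_ne_top ENNReal.one_ne_top hSle
      have h4 := ENNReal.toReal_mono (by finiteness) (hpt S s t ht)
      rwa [ENNReal.toReal_add hS2 (by finiteness), ENNReal.toReal_add (by finiteness)
        (by finiteness), ENNReal.toReal_mul, ENNReal.toReal_ofReal ht.le,
        ENNReal.toReal_ofReal hδ, ENNReal.toReal_ofReal (by positivity)] at h4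
    rcases hδ.eq_or_lt with h0 | h0
    · subst h0
      simp only [mul_zero, Real.sqrt_zero, add_zero]
      refine le_of_forall_pos_le_add (fun ε hε => ?_)
      have h4 := h3 (2 / ε) (by positivity)
      have e3 : (2 : ℝ) / ε * 0 + 2 / (2 / ε) = ε := by field_simp; ring
      rwa [e3] at h4
    · have hr : 0 < Real.sqrt (2 * δ) := Real.sqrt_pos.mpr (by positivity)
      have h4 := h3 (2 / Real.sqrt (2 * δ)) (by positivity)
      have e3 : 2 / Real.sqrt (2 * δ) * δ + 2 / (2 / Real.sqrt (2 * δ)) =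
          2 * Real.sqrt (2 * δ) := by
        have h5 : Real.sqrt (2 * δ) * Real.sqrt (2 * δ) = 2 * δ :=
          Real.mul_self_sqrt (by positivity)
        have e4 : 2 / Real.sqrt (2 * δ) * δ = Real.sqrt (2 * δ) := by
          rw [div_mul_eq_mul_div, div_eq_iff hr.ne', h5]
        have e5 : 2 / (2 / Real.sqrt (2 * δ)) = Real.sqrt (2 * δ) := by
          field_simp
        rw [e4, e5]
        ring
      rwa [e3] at h4
  have hR := hPAR (D × ℕ) ρ' hρ' (fun A => (M μX V A).toReal) (fun A => ENNReal.toReal_nonneg)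
    hsum (2 * Real.sqrt (2 * δ)) hκ
  -- the nonempty part
  set R : ℝ≥0∞ := ∑' A : {A : Finset (D × ℕ) // A.Nonempty}, M μX V A with hRdef
  have hRle : R ≤ ENNReal.ofReal (4 * Real.sqrt (2 * δ)) := by
    have hR1 : R ≤ 1 := by
      rw [← htot]
      exact ENNReal.tsum_comp_le_tsum_of_injective Subtype.val_injective _
    have hR2 : R ≠ ⊤ := ne_top_of_le_ne_top ENNReal.one_ne_top hR1
    have e1 : R.toReal = ∑' A : {A : Finset (D × ℕ) // A.Nonempty}, (M μX V A).toReal :=
      ENNReal.tsum_toReal_eq (fun A => hfin _)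
    rw [ENNReal.le_ofReal_iff_toReal_le hR2 (by positivity), e1]
    linarith
  have hsplit : R + M μX V (∅ : Finset (D × ℕ)) = 1 := by
    have h1 := Summable.tsum_add_tsum_compl (s := {A : Finset (D × ℕ) | A.Nonempty})
      (f := fun A => M μX V A) ENNReal.summable ENNReal.summable
    have hc : {A : Finset (D × ℕ) | A.Nonempty}ᶜ = {∅} := by
      ext A
      simp
    rw [hc, tsum_singleton, htot] at h1
    exact h1
  -- the level probabilities
  have hne : Nonempty X := nonempty_of_isProbabilityMeasure μX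
  have hneL : Nonempty Λ := ⟨V (Classical.choice hne, fun _ => true)⟩
  have hco : ∀ (x : X) (l : Λ), ENNReal.ofReal (co (fun ω => V (x, ω)) ∅ l ^ 2) =
      mu (D × ℕ) {ω | V (x, ω) = l} * mu (D × ℕ) {ω | V (x, ω) = l} := by
    intro x l
    have e1 : co (fun ω => V (x, ω)) ∅ l = (mu (D × ℕ) {ω | V (x, ω) = l}).toReal := by
      unfold co wal
      simp [Measure.real]
    rw [e1, pow_two, ENNReal.ofReal_mul ENNReal.toReal_nonneg,
      ENNReal.ofReal_toReal (measure_ne_top _ _)]
  have hex : ∀ x : X, ∃ l : Λ, ∑' l' : Λ, ENNReal.ofReal (co (fun ω => V (x, ω)) ∅ l' ^ 2) ≤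
      mu (D × ℕ) {ω | V (x, ω) = l} := by
    intro x
    by_contra hcon
    push Not at hcon
    have hs1 : ∑' l : Λ, mu (D × ℕ) {ω | V (x, ω) = l} = 1 := by
      have h1 := tsum_lev (mu (D × ℕ)) (fun ω => V (x, ω)) (hV.comp measurable_prodMk_left)
        Set.univ MeasurableSet.univ
      simpa using h1
    have hl0 : ∃ l0 : Λ, mu (D × ℕ) {ω | V (x, ω) = l0} ≠ 0 := by
      by_contra h0
      push Not at h0
      simp [h0] at hs1
    obtain ⟨l0, hl0⟩ := hl0
    set b : ℝ≥0∞ := ∑' l' : Λ, ENNReal.ofReal (co (fun ω => V (x, ω)) ∅ l' ^ 2) with hb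
    have hb1 : b ≤ 1 := by
      rw [hb, ← hs1]
      refine ENNReal.tsum_le_tsum (fun l => ?_)
      rw [hco]
      exact mul_le_of_le_one_left' prob_le_one
    have h2 : b < b := by
      calc b = ∑' l : Λ, mu (D × ℕ) {ω | V (x, ω) = l} * mu (D × ℕ) {ω | V (x, ω) = l} := by
            rw [hb]
            exact tsum_congr (fun l => hco x l)
        _ < ∑' l : Λ, mu (D × ℕ) {ω | V (x, ω) = l} * b := by
            refine ENNReal.tsum_lt_tsum (i := l0) ?_ (fun l => ?_) ?_
            · rw [← tsum_congr (fun l => hco x l)]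
              exact ne_top_of_le_ne_top ENNReal.one_ne_top hb1
            · gcongr
              exact (hcon l).le
            · exact (ENNReal.mul_lt_mul_iff_right hl0 (measure_ne_top _ _)).mpr (hcon l0)
        _ = b := by
            rw [ENNReal.tsum_mul_right, hs1, one_mul]
    exact lt_irrefl _ h2
  obtain ⟨e, he⟩ := exists_surjective_nat Λ
  have hex2 : ∀ x : X, ∃ n : ℕ, ∑' l' : Λ, ENNReal.ofReal (co (fun ω => V (x, ω)) ∅ l' ^ 2) ≤
      mu (D × ℕ) {ω | V (x, ω) = e n} := by
    intro x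
    obtain ⟨l, hl⟩ := hex x
    obtain ⟨n, rfl⟩ := he l
    exact ⟨n, hl⟩
  classical
  refine ⟨fun x => e (Nat.find (hex2 x)), ?_, ?_⟩
  · refine (Measurable.of_discrete (f := e)).comp (measurable_find hex2 (fun n => ?_))
    refine measurableSet_le (Measurable.ennreal_tsum
      (fun l => ((co_meas V hV ∅ l).pow_const 2).ennreal_ofReal)) ?_
    exact measurable_measure_prodMk_left (hV (measurableSet_singleton (e n)))
  · have hvm : Measurable (fun x : X => e (Nat.find (hex2 x))) := by
      refine (Measurable.of_discrete (f := e)).comp (measurable_find hex2 (fun n => ?_))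
      refine measurableSet_le (Measurable.ennreal_tsum
        (fun l => ((co_meas V hV ∅ l).pow_const 2).ennreal_ofReal)) ?_
      exact measurable_measure_prodMk_left (hV (measurableSet_singleton (e n)))
    have hE : MeasurableSet {q : X × (D × ℕ → Bool) | V q = e (Nat.find (hex2 q.1))} :=
      measurableSet_eq_fun hV (hvm.comp measurable_fst)
    have h1 : M μX V (∅ : Finset (D × ℕ)) ≤
        (μX.prod (mu (D × ℕ))) {q : X × (D × ℕ → Bool) | V q = e (Nat.find (hex2 q.1))} := by
      rw [Measure.prod_apply hE]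
      unfold M
      refine lintegral_mono (fun x => ?_)
      exact Nat.find_spec (hex2 x)
    have h2 : (μX.prod (mu (D × ℕ))) {q | V q ≠ e (Nat.find (hex2 q.1))} +
        M μX V (∅ : Finset (D × ℕ)) ≤ R + M μX V (∅ : Finset (D × ℕ)) := by
      rw [hsplit]
      calc _ ≤ (μX.prod (mu (D × ℕ))) {q | V q ≠ e (Nat.find (hex2 q.1))} +
            (μX.prod (mu (D × ℕ))) {q | V q = e (Nat.find (hex2 q.1))} := by gcongr
        _ = 1 := by
            have h3 := measure_add_measure_compl (μ := μX.prod (mu (D × ℕ))) hE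
            rw [measure_univ, add_comm] at h3
            exact h3
    exact le_trans ((ENNReal.add_le_add_iff_right (hfin ∅)).mp h2) hRle

end H24.ES
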